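import Pool.Agent.H13.TM.PAa
import Pool.Agent.H27.TM.TargetsG
import Pool.Agent.H31.SW.TargetsG

/-!
# Board tm12_modules, row PA: Poisson summation and the separation of the variables
-/

set_option autoImplicit false

open NumberField NumberField.InfinitePlace NumberField.Units
  NumberField.Units.dirichletUnitTheorem MeasureTheory Set Filter Complex
open scoped nonZeroDivisors ENNReal

namespace Pool.Agent.H13.TM

open Pool.Agent.H25.HK Pool.Agent.H23.LB Pool.Agent.H23.LC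
open Pool.Agent.H29.DW (dg Rl lf wv Pos Wg cpar Ci om zs rv Wt)
open Pool.Agent.H31.SW (EE itg FF HD DB DS dif Pf GG G2 DD PP pF dK pz ps Tf WG Rl_mul Rl_div
  Rl_ofReal W_PO W_WS)
open Pool.Agent.H27.TM

theorem rp {x : ℝ} (hx : 0 ≤ x) (k : ℕ) : x ^ (-(k : ℝ)) = (x ^ k)⁻¹ := by
  rw [Real.rpow_neg hx, Real.rpow_natCast]

/-- monotonicity of the weights -/
theorem wt_anti {x x' M : ℝ} (hx : 0 ≤ x) (hxx : x ≤ x') (hM : 0 < M) (k : ℕ) :
    (1 + x' / M) ^ (-(k : ℝ)) ≤ (1 + x / M) ^ (-(k : ℝ)) := by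
  have h1 : 0 ≤ x / M := by positivity
  have h2 : x / M ≤ x' / M := div_le_div_of_nonneg_right hxx hM.le
  rw [rp (by linarith), rp (by linarith)]
  exact inv_anti₀ (by positivity) (pow_le_pow_left₀ (by linarith) (by linarith) k)

/-- comparison with the weight of scale one -/
theorem wt_one {x M : ℝ} (hx : 0 ≤ x) (hM : 1 ≤ M) {k n : ℕ} (hk : n + 1 ≤ k) :
    (1 + x / M) ^ (-(k : ℝ)) ≤ M ^ k * (1 + x) ^ (-((n : ℝ) + 1)) := by
  have hM0 : 0 < M := by linarith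
  have h1 : 0 ≤ x / M := by positivity
  have h2 : (1 + x) / M ≤ 1 + x / M := by
    rw [div_le_iff₀ hM0, add_mul, one_mul, div_mul_cancel₀ _ hM0.ne']
    linarith
  have h3 : (0 : ℝ) < (1 + x) / M := by positivity
  have e1 : -((n : ℝ) + 1) = -((n + 1 : ℕ) : ℝ) := by push_cast; ring
  rw [e1, rp (by linarith), rp (by linarith)]
  have h4 : ((1 + x / M) ^ k)⁻¹ ≤ (((1 + x) / M) ^ k)⁻¹ :=
    inv_anti₀ (pow_pos h3 _) (pow_le_pow_left₀ h3.le h2 k)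
  refine h4.trans ?_
  rw [div_pow, inv_div, div_eq_mul_inv]
  refine mul_le_mul_of_nonneg_left ?_ (by positivity)
  exact inv_anti₀ (by positivity) (pow_le_pow_right₀ (by linarith) hk)

section

variable {K : Type} [Field K] [NumberField K]

theorem norm_ca (r x : K) : ‖ca K r x‖ = 1 := by
  unfold ca
  have h : (2 * Real.pi * I * ((Algebra.trace ℚ K (r * x) : ℚ) : ℂ) : ℂ) =
      ((2 * Real.pi * ((Algebra.trace ℚ K (r * x) : ℚ) : ℝ) : ℝ) : ℂ) * I := by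
    push_cast
    ring
  rw [h]
  exact Complex.norm_exp_ofReal_mul_I _

theorem mc_eq (α : InfinitePlace K → ℝ) (y : InfinitePlace K → ℝ) {ω : InfinitePlace K → ℂ}
    (hω : Pos ω) (δ ξ : K) (v : InfinitePlace K) :
    wv v δ y ω * (2 * Real.pi * dg (rv v) *
      wv v ξ (-y) (fun v => (starRingEnd ℂ) (ω v))) / (α v : ℂ) = mc α (δ * ξ) v := by
  have h1 : ω v * (starRingEnd ℂ) (ω v) = 1 := by
    rw [Complex.mul_conj, Complex.normSq_eq_norm_sq, hω.one v]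
    simp
  have h2 : ((Real.exp (y v / 2) : ℝ) : ℂ) * ((Real.exp ((-y) v / 2) : ℝ) : ℂ) = 1 := by
    rw [← Complex.ofReal_mul, ← Real.exp_add]
    have : y v / 2 + (-y) v / 2 = 0 := by
      simp only [Pi.neg_apply]
      ring
    rw [this, Real.exp_zero, Complex.ofReal_one]
  unfold mc wv
  rw [map_mul]
  have e : v.embedding δ * ((Real.exp (y v / 2) : ℝ) : ℂ) * ω v * (2 * Real.pi * dg (rv v) *
      (v.embedding ξ * ((Real.exp ((-y) v / 2) : ℝ) : ℂ) * (starRingEnd ℂ) (ω v))) / (α v : ℂ) =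
      (2 * Real.pi * dg (rv v) / (α v : ℂ)) * (v.embedding δ * v.embedding ξ) *
        (((Real.exp (y v / 2) : ℝ) : ℂ) * ((Real.exp ((-y) v / 2) : ℝ) : ℂ)) *
        (ω v * (starRingEnd ℂ) (ω v)) := by ring
  rw [e, h1, h2]
  push_cast
  ring

theorem norm_mc_ge (α : InfinitePlace K → ℝ) (y : InfinitePlace K → ℝ)
    {ω : InfinitePlace K → ℂ} (hω : Pos ω) (δ ξ : K) (v : InfinitePlace K) (hα : 0 < α v)
    (hδ : α v ≤ ‖wv v δ y ω‖) :
    ‖wv v ξ (-y) (fun v => (starRingEnd ℂ) (ω v))‖ ≤ ‖mc α (δ * ξ) v‖ := by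
  rw [← mc_eq α y hω δ ξ v, norm_div, norm_mul, norm_mul, Complex.norm_real,
    Real.norm_eq_abs, abs_of_pos hα, le_div_iff₀ hα]
  have h1 : (1 : ℝ) ≤ ‖(2 * Real.pi * dg (rv v) : ℂ)‖ := by
    have e : (2 * Real.pi * dg (rv v) : ℂ) = ((2 * Real.pi * dg (rv v) : ℝ) : ℂ) := by
      push_cast
      ring
    have h2 : (1 : ℝ) ≤ (dg (rv v) : ℝ) := by
      unfold dg
      split_ifs <;> norm_num
    rw [e, Complex.norm_real, Real.norm_eq_abs]
    have h3 := Real.pi_gt_three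
    have h4 : (1 : ℝ) ≤ 2 * Real.pi * dg (rv v) := by nlinarith
    exact h4.trans (le_abs_self _)
  set W := ‖wv v ξ (-y) (fun v => (starRingEnd ℂ) (ω v))‖ with hW
  have hW0 : 0 ≤ W := norm_nonneg _
  calc W * α v ≤ W * ‖wv v δ y ω‖ := mul_le_mul_of_nonneg_left hδ hW0
    _ = ‖wv v δ y ω‖ * (1 * W) := by ring
    _ ≤ ‖wv v δ y ω‖ * (‖(2 * Real.pi * dg (rv v) : ℂ)‖ * W) := by
        refine mul_le_mul_of_nonneg_left ?_ (norm_nonneg _)
        exact mul_le_mul_of_nonneg_right h1 hW0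

theorem Rl_zeta (y : InfinitePlace K → ℝ) {ω : InfinitePlace K → ℂ} (hω : Pos ω) (ξ : K)
    (v : InfinitePlace K) : Rl (rv v) (2 * Real.pi * dg (rv v) *
      wv v ξ (-y) (fun v => (starRingEnd ℂ) (ω v))) := by
  have e : (2 * Real.pi * dg (rv v) : ℂ) = ((2 * Real.pi * dg (rv v) : ℝ) : ℂ) := by
    push_cast
    ring
  rw [e]
  exact Rl_mul (Rl_ofReal _ _) (Pool.Agent.H29.DW.Rl_wv v ξ (-y) hω.conj)

/-- Fubini for the square of the parameters -/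
theorem int_prod (f : InfinitePlace K → ℂ → ℂ) :
    ∫ s in Set.pi univ fun _ : InfinitePlace K => S4, ∏ v, f v (s v) =
      ∏ v, ∫ s in S4, f v s := by
  have h : (volume : Measure (InfinitePlace K → ℂ)).restrict
      (Set.pi univ fun _ : InfinitePlace K => S4) =
      Measure.pi fun _ => (volume : Measure ℂ).restrict S4 := by
    rw [volume_pi, Measure.restrict_pi_pi]
  rw [h]
  have : IsFiniteMeasure ((volume : Measure ℂ).restrict S4) := ⟨by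
    rw [Measure.restrict_apply_univ]
    exact volume_S4_lt⟩
  exact integral_fintype_prod_eq_prod f

/-- the terms of the dual sum -/
noncomputable def TT (r δ : K) (β : InfinitePlace K → ℂ) (α : InfinitePlace K → ℝ)
    (Q : InfinitePlace K → ℂ → ℂ → ℂ) (c : InfinitePlace K → ℂ) (ξ : K)
    (s : InfinitePlace K → ℂ) : ℂ :=
  ca K (r + δ) ξ * ∏ v, (kp (rv v) (s v) (β v) *
    El (rv v) (α v) (c v) (Q v (s v)) (mc α (δ * ξ) v))

theorem Rl_mc (α : InfinitePlace K → ℝ) (y : InfinitePlace K → ℝ) {ω : InfinitePlace K → ℂ}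
    (hω : Pos ω) (δ ξ : K) (v : InfinitePlace K) : Rl (rv v) (mc α (δ * ξ) v) := by
  rw [← mc_eq α y hω δ ξ v]
  exact Rl_div (Rl_mul (Pool.Agent.H29.DW.Rl_wv v δ y hω) (Rl_zeta y hω ξ v)) (Rl_ofReal _ _)

theorem norm_TT (r δ : K) (β : InfinitePlace K → ℂ) (α : InfinitePlace K → ℝ)
    (Q : InfinitePlace K → ℂ → ℂ → ℂ) (c : InfinitePlace K → ℂ) (y : InfinitePlace K → ℝ)
    {ω : InfinitePlace K → ℂ} (hω : Pos ω) (N : ℕ) (B : ℝ) (hB0 : 0 ≤ B)
    (hα : ∀ v, 0 < α v) (hδ : ∀ v, α v ≤ ‖wv v δ y ω‖)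
    (hB : ∀ v s m, Rl (rv v) m → ‖El (rv v) (α v) (c v) (Q v s) m‖ ≤
      B * (1 + ‖m‖ / max 1 (α v * ‖c v‖)) ^ (-(N : ℝ))) (ξ : K) (s : InfinitePlace K → ℂ) :
    ‖TT r δ β α Q c ξ s‖ ≤ B ^ (Fintype.card (InfinitePlace K)) * ∏ v : InfinitePlace K,
      (1 + ‖wv v ξ (-y) (fun v => (starRingEnd ℂ) (ω v))‖ / max 1 (α v * ‖c v‖)) ^
        (-(N : ℝ)) := by
  unfold TT
  rw [norm_mul, norm_ca, one_mul, norm_prod, ← Finset.card_univ, ← Finset.prod_const,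
    ← Finset.prod_mul_distrib]
  refine Finset.prod_le_prod (fun v _ => norm_nonneg _) fun v _ => ?_
  rw [norm_mul]
  have hM : (0 : ℝ) < max 1 (α v * ‖c v‖) := lt_of_lt_of_le one_pos (le_max_left _ _)
  calc ‖kp (rv v) (s v) (β v)‖ * ‖El (rv v) (α v) (c v) (Q v (s v)) (mc α (δ * ξ) v)‖
      ≤ 1 * (B * (1 + ‖mc α (δ * ξ) v‖ / max 1 (α v * ‖c v‖)) ^ (-(N : ℝ))) :=
        mul_le_mul (norm_kp _ _ _) (hB v _ _ (Rl_mc α y hω δ ξ v)) (norm_nonneg _) zero_le_one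
    _ ≤ _ := by
        rw [one_mul]
        refine mul_le_mul_of_nonneg_left ?_ hB0
        exact wt_anti (norm_nonneg _) (norm_mc_ge α y hω δ ξ v (hα v) (hδ v)) hM N

theorem meas_TT (r δ : K) (β : InfinitePlace K → ℂ) (α : InfinitePlace K → ℝ)
    (Q : InfinitePlace K → ℂ → ℂ → ℂ) (c : InfinitePlace K → ℂ)
    (hQ : ∀ v, Continuous (fun z : ℂ × ℂ => Q v z.1 z.2)) (ξ : K) :
    Measurable (TT r δ β α Q c ξ) := by
  unfold TT
  refine Measurable.const_mul ?_ _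
  refine Finset.measurable_prod _ fun v _ => ?_
  exact ((measurable_kp (rv v) (β v)).comp (measurable_pi_apply v)).mul
    ((measurable_El (rv v) (α v) (c v) (mc α (δ * ξ) v) (hQ v)).comp (measurable_pi_apply v))

/-- the sum over the points with a given half difference -/
theorem per_delta (hPO : W_PO) (hLS : M_LS) (hWS : W_WS) {n : ℕ} (hn : 0 < n)
    (hfin : Module.finrank ℚ K = n) {q Ψ : Bool → ℂ → ℂ} (hq : Pf q) (hΨ : Pf Ψ) {N : ℕ}
    (hN : n + 5 ≤ N) {L : FI K} (hL : L ≠ 0) (y : InfinitePlace K → ℝ)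
    {ω : InfinitePlace K → ℂ} (hω : Pos ω) (r δ : K) {G α : InfinitePlace K → ℝ}
    (hGα : ∀ v, 1 ≤ G v ∧ 0 < α v ∧ α v ≤ 1 / 10000 ∧ G v * α v ≤ 1 / 10000)
    {F F₁ Q : InfinitePlace K → ℂ → ℂ → ℂ} {C₁ : ℝ}
    (hSep : ∀ v, Sep (rv v) (α v) (G v) (q (rv v)) (Ψ (rv v)) (F v) (F₁ v) (Q v))
    (hAm : ∀ v s, Am N C₁ (rv v) (Q v s)) {c : InfinitePlace K → ℂ}
    (hc : ∀ v, Rl (rv v) (c v)) {B : ℝ} (hB0 : 0 ≤ B)
    (hB : ∀ v s m, Rl (rv v) m → ‖El (rv v) (α v) (c v) (Q v s) m‖ ≤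
      B * (1 + ‖m‖ / max 1 (α v * ‖c v‖)) ^ (-(N : ℝ)))
    (hδ : ∀ v, α v ≤ ‖wv v δ y ω‖ ∧ ‖wv v δ y ω‖ < 2 * α v) :
    (∀ s, Summable fun ξ : {ξ : K // ξ ∈ du K L} =>
      TT r δ (fun v => wv v δ y ω / α v) α Q c ξ s) ∧
    IntegrableOn (fun s => ∑' ξ : {ξ : K // ξ ∈ du K L},
      TT r δ (fun v => wv v δ y ω / α v) α Q c ξ s) (Set.pi univ fun _ => S4) ∧
    ∑' x : {x : K // x ∈ L},
      pF (fun v => G3 (q (rv v)) (Ψ (rv v)) (G v) (c v) (wv v δ y ω)) y ω (r + δ + x) =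
      ((DD L y / Real.sqrt (dK K) : ℝ) : ℂ) * ∫ s in Set.pi univ fun _ => S4,
        ∑' ξ : {ξ : K // ξ ∈ du K L}, TT r δ (fun v => wv v δ y ω / α v) α Q c ξ s := by
  have hM1 : ∀ v, (1 : ℝ) ≤ max 1 (α v * ‖c v‖) := fun v => le_max_left _ _
  have hM0 : ∀ v, (0 : ℝ) < max 1 (α v * ‖c v‖) := fun v => lt_of_lt_of_le one_pos (hM1 v)
  have hdu : du K L ≠ 0 := by
    unfold du
    exact FractionalIdeal.dual_ne_zero ℤ ℚ hL
  obtain ⟨CW, _, hWS'⟩ := hWS n hn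
  have hsumW := (hWS' K hfin (du K L) (-y) (fun v => (starRingEnd ℂ) (ω v))
    (fun v => max 1 (α v * ‖c v‖)) N hdu hω.conj hM0 (by omega)).1
  have hbd : ∀ (ξ : {ξ : K // ξ ∈ du K L}) (s : InfinitePlace K → ℂ),
      ‖TT r δ (fun v => wv v δ y ω / α v) α Q c ξ s‖ ≤ B ^ (Fintype.card (InfinitePlace K)) *
        ∏ v : InfinitePlace K, (1 + ‖wv v ξ.1 (-y) (fun v => (starRingEnd ℂ) (ω v))‖ /
          max 1 (α v * ‖c v‖)) ^ (-(N : ℝ)) := fun ξ s =>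
    norm_TT r δ _ α Q c y hω N B hB0 (fun v => (hGα v).2.1) (fun v => (hδ v).1) hB ξ s
  have hsumB := hsumW.mul_left (B ^ (Fintype.card (InfinitePlace K)))
  have hfinm : IsFiniteMeasure ((volume : Measure (InfinitePlace K → ℂ)).restrict
      (Set.pi univ fun _ => S4)) := ⟨by
    rw [Measure.restrict_apply_univ, volume_pi_pi]
    exact ENNReal.prod_lt_top fun v _ => volume_S4_lt⟩
  have hcK : Countable K := (Module.finBasis ℚ K).equivFun.toEquiv.countable_iff.2 inferInstance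
  have hSI := sum_int (μ := (volume : Measure (InfinitePlace K → ℂ)).restrict
      (Set.pi univ fun _ => S4)) (F := fun (ξ : {ξ : K // ξ ∈ du K L}) s =>
      TT r δ (fun v => wv v δ y ω / α v) α Q c ξ s)
    (fun ξ => (meas_TT r δ _ α Q c (fun v => (hSep v).cQ) ξ.1).aestronglyMeasurable) hbd hsumB
  refine ⟨fun s => hsumB.of_norm_bounded fun ξ => hbd ξ s, hSI.1, ?_⟩
  have hFF : ∀ (v : InfinitePlace K) (ζ : ℂ), Rl (rv v) ζ →
      FF (rv v) (G3 (q (rv v)) (Ψ (rv v)) (G v) (c v) (wv v δ y ω)) ζ =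
      ∫ s in S4, kp (rv v) s (wv v δ y ω / α v) *
        El (rv v) (α v) (c v) (Q v s) (wv v δ y ω * ζ / α v) := fun v ζ hζ =>
    hLS q Ψ hq hΨ N C₁ (rv v) (α v) (G v) (F v) (F₁ v) (Q v) (hGα v).2.1 (hGα v).2.2.1
      (hGα v).1 (hGα v).2.2.2 (hSep v) (hAm v) (c v) (wv v δ y ω) ζ (hc v)
      (Pool.Agent.H29.DW.Rl_wv v δ y hω) hζ (hδ v).1 (hδ v).2
  have hPO' := hPO K L (r + δ)
    (fun v => G3 (q (rv v)) (Ψ (rv v)) (G v) (c v) (wv v δ y ω)) hL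
    (fun v => continuous_G3 ((hq.1 (rv v) 0).continuous) (hq.2 (rv v))
      ((hΨ.1 (rv v) 0).continuous) _ _ _)
    ⟨2, fun v w hw => G3_zero (hq.2 (rv v)) _ _ _ w hw⟩ ?_ y ω hω
  · rw [hPO'.2]
    congr 1
    rw [← hSI.2.tsum_eq]
    refine tsum_congr fun ξ => ?_
    have h1 : ∀ v : InfinitePlace K,
        FF (rv v) (G3 (q (rv v)) (Ψ (rv v)) (G v) (c v) (wv v δ y ω))
          (2 * Real.pi * dg (rv v) * wv v ξ.1 (-y) (fun v => (starRingEnd ℂ) (ω v))) =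
        ∫ s in S4, kp (rv v) s (wv v δ y ω / α v) *
          El (rv v) (α v) (c v) (Q v s) (mc α (δ * ξ.1) v) := by
      intro v
      rw [hFF v _ (Rl_zeta y hω ξ.1 v), mc_eq α y hω δ ξ.1 v]
    simp_rw [h1]
    rw [← int_prod (K := K) (fun v s => kp (rv v) s (wv v δ y ω / α v) *
      El (rv v) (α v) (c v) (Q v s) (mc α (δ * ξ.1) v)), ← integral_const_mul]
    rfl
  · refine ⟨∑ v : InfinitePlace K, B * (max 1 (α v * ‖c v‖)) ^ N * (volume S4).toReal, ?_⟩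
    intro v ζ hζ
    rw [hFF v ζ hζ]
    have h1 : ∀ s ∈ S4, ‖kp (rv v) s (wv v δ y ω / α v) *
        El (rv v) (α v) (c v) (Q v s) (wv v δ y ω * ζ / α v)‖ ≤
        B * (max 1 (α v * ‖c v‖)) ^ N * (1 + ‖ζ‖) ^ (-((n : ℝ) + 1)) := by
      intro s _
      have hα0 := (hGα v).2.1
      have hRm : Rl (rv v) (wv v δ y ω * ζ / (α v : ℂ)) :=
        Rl_div (Rl_mul (Pool.Agent.H29.DW.Rl_wv v δ y hω) hζ) (Rl_ofReal _ _)
      have hnm : ‖ζ‖ ≤ ‖wv v δ y ω * ζ / (α v : ℂ)‖ := by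
        rw [norm_div, norm_mul, Complex.norm_real, Real.norm_eq_abs, abs_of_pos hα0,
          le_div_iff₀ hα0, mul_comm]
        exact mul_le_mul_of_nonneg_right (hδ v).1 (norm_nonneg _)
      rw [norm_mul]
      calc ‖kp (rv v) s (wv v δ y ω / α v)‖ *
            ‖El (rv v) (α v) (c v) (Q v s) (wv v δ y ω * ζ / α v)‖
          ≤ 1 * (B * (1 + ‖wv v δ y ω * ζ / (α v : ℂ)‖ / max 1 (α v * ‖c v‖)) ^ (-(N : ℝ))) :=
            mul_le_mul (norm_kp _ _ _) (hB v s _ hRm) (norm_nonneg _) zero_le_one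
        _ ≤ B * (1 + ‖ζ‖ / max 1 (α v * ‖c v‖)) ^ (-(N : ℝ)) := by
            rw [one_mul]
            exact mul_le_mul_of_nonneg_left (wt_anti (norm_nonneg _) hnm (hM0 v) N) hB0
        _ ≤ B * ((max 1 (α v * ‖c v‖)) ^ N * (1 + ‖ζ‖) ^ (-((n : ℝ) + 1))) :=
            mul_le_mul_of_nonneg_left (wt_one (norm_nonneg _) (hM1 v) (by omega)) hB0
        _ = _ := by ring
    have h2 := norm_setIntegral_le_of_norm_le_const volume_S4_lt h1
    refine h2.trans ?_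
    rw [hfin]
    have h3 : 0 ≤ (1 + ‖ζ‖) ^ (-((n : ℝ) + 1)) := Real.rpow_nonneg (by positivity) _
    have h4 : B * (max 1 (α v * ‖c v‖)) ^ N * (volume S4).toReal ≤
        ∑ v : InfinitePlace K, B * (max 1 (α v * ‖c v‖)) ^ N * (volume S4).toReal :=
      Finset.single_le_sum (f := fun v : InfinitePlace K =>
        B * (max 1 (α v * ‖c v‖)) ^ N * (volume S4).toReal)
        (fun v _ => mul_nonneg (mul_nonneg hB0 (pow_nonneg (hM0 v).le _)) ENNReal.toReal_nonneg)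
        (Finset.mem_univ v)
    have h5 := mul_le_mul_of_nonneg_right h4 h3
    refine le_trans (le_of_eq ?_) h5
    rw [Measure.real]
    ring

open scoped Classical in
/-- the sum over the products -/
theorem regroup (L : FI K) (r : K) (D : Finset K) (β : K → InfinitePlace K → ℂ)
    (α : InfinitePlace K → ℝ) (Q : InfinitePlace K → ℂ → ℂ → ℂ) (c : InfinitePlace K → ℂ)
    (s : InfinitePlace K → ℂ) (hD0 : ∀ δ ∈ D, δ ≠ 0)
    (hDN : ∀ δ ∈ D, ∀ ξ ∈ du K L, δ * ξ ∈ NN K)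
    (hs : ∀ δ ∈ D, Summable fun ξ : {ξ : K // ξ ∈ du K L} => TT r δ (β δ) α Q c ξ s) :
    ∑' ν : {ν : K // ν ∈ NN K}, (∑ δ ∈ D, if (ν : K) / δ ∈ du K L then
        ca K (r + δ) ((ν : K) / δ) * ∏ v, kp (rv v) (s v) (β δ v) else 0) *
        Ep α (fun v => Q v (s v)) c ν =
      ∑ δ ∈ D, ∑' ξ : {ξ : K // ξ ∈ du K L}, TT r δ (β δ) α Q c ξ s := by
  have h : ∀ δ ∈ D, HasSum (fun ν : {ν : K // ν ∈ NN K} =>
      (if (ν : K) / δ ∈ du K L then
        ca K (r + δ) ((ν : K) / δ) * ∏ v, kp (rv v) (s v) (β δ v) else 0) *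
        Ep α (fun v => Q v (s v)) c ν)
      (∑' ξ : {ξ : K // ξ ∈ du K L}, TT r δ (β δ) α Q c ξ s) := by
    intro δ hδ
    have hδ0 := hD0 δ hδ
    let i : {ξ : K // ξ ∈ du K L} → {ν : K // ν ∈ NN K} := fun ξ =>
      ⟨δ * ξ.1, hDN δ hδ ξ.1 ξ.2⟩
    have hi : Function.Injective i := by
      intro a b hab
      have h1 : δ * a.1 = δ * b.1 := congrArg Subtype.val hab
      exact Subtype.ext (mul_left_cancel₀ hδ0 h1)
    refine (hi.hasSum_iff ?_).1 ?_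
    · intro ν hν
      have h1 : ¬ ((ν : K) / δ ∈ du K L) := by
        intro h2
        refine hν ⟨⟨(ν : K) / δ, h2⟩, ?_⟩
        apply Subtype.ext
        exact mul_div_cancel₀ (ν : K) hδ0
      rw [if_neg h1, zero_mul]
    · have h1 : ((fun ν : {ν : K // ν ∈ NN K} =>
          (if (ν : K) / δ ∈ du K L then
            ca K (r + δ) ((ν : K) / δ) * ∏ v, kp (rv v) (s v) (β δ v) else 0) *
            Ep α (fun v => Q v (s v)) c ν) ∘ i) =
          fun ξ : {ξ : K // ξ ∈ du K L} => TT r δ (β δ) α Q c ξ s := by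
        funext ξ
        have h2 : (δ * ξ.1) / δ = ξ.1 := mul_div_cancel_left₀ ξ.1 hδ0
        simp only [Function.comp_apply, i]
        rw [h2, if_pos ξ.2]
        unfold TT Ep
        rw [Finset.prod_mul_distrib, mul_assoc]
      rw [h1]
      exact (hs δ hδ).hasSum
  have h2 := hasSum_sum h
  rw [← h2.tsum_eq]
  refine tsum_congr fun ν => ?_
  rw [Finset.sum_mul]

end

open scoped Classical in
theorem pf_PA (hPO : Pool.Agent.H31.SW.W_PO) (hLA : M_LA) (hLS : M_LS) (hE1 : M_E1)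
    (hWS : Pool.Agent.H31.SW.W_WS) (hNL : M_NL) (hDL : M_DL) : M_PA := by
  intro n q Ψ N hn hq hΨ hN
  obtain ⟨C₁, hC₁, hLA'⟩ := hLA q Ψ hq hΨ N
  refine ⟨C₁, hC₁.le, ?_⟩
  intro K _ _ hfin L y ω r G α hL hω hGα
  have hLAv : ∀ v : InfinitePlace K, ∃ F F₁ Q : ℂ → ℂ → ℂ,
      Sep (rv v) (α v) (G v) (q (rv v)) (Ψ (rv v)) F F₁ Q ∧ ∀ s, Am N C₁ (rv v) (Q s) :=
    fun v => hLA' (rv v) (α v) (G v) (hGα v).2.1 (hGα v).2.2.1 (hGα v).1 (hGα v).2.2.2
  choose F F₁ Q hSep hAm using hLAv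
  obtain ⟨CD, _, hDL'⟩ := hDL n hn
  obtain ⟨hDfin, _, _⟩ := hDL' K hfin L y ω α hL hω (fun v => (hGα v).2.1)
  set D : Finset K := hDfin.toFinset with hD
  have hDm : ∀ δ, δ ∈ D ↔ δ ∈ Dl L y ω α := fun δ => hDfin.mem_toFinset
  have hD0 : ∀ δ ∈ D, δ ≠ 0 := by
    intro δ hδ h0
    have h1 := ((hDm δ).1 hδ).2
    obtain ⟨v⟩ : Nonempty (InfinitePlace K) := inferInstance
    have h2 := (h1 v).1
    rw [h0, Pool.Agent.H29.DW.wv_zero, norm_zero] at h2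
    exact absurd (hGα v).2.1 (not_lt.2 h2)
  have hDN : ∀ δ ∈ D, ∀ ξ ∈ du K L, δ * ξ ∈ NN K := fun δ hδ ξ hξ =>
    (hNL K).2.2.2.2 L δ ξ hL ((hDm δ).1 hδ).1 hξ
  refine ⟨fun s v => Q v (s v), fun s ν => ∑ δ ∈ D, if ν / δ ∈ du K L then
    ca K (r + δ) (ν / δ) * ∏ v, kp (rv v) (s v) (wv v δ y ω / α v) else 0,
    fun s v => hAm v (s v), ?_, ?_⟩
  · intro s ν
    refine (norm_sum_le _ _).trans ?_
    have h1 : ∀ δ ∈ D, ‖(if ν / δ ∈ du K L then
        ca K (r + δ) (ν / δ) * ∏ v, kp (rv v) (s v) (wv v δ y ω / α v) else 0 : ℂ)‖ ≤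
        if ν / δ ∈ du K L then (1 : ℝ) else 0 := by
      intro δ _
      split_ifs
      · rw [norm_mul, norm_ca, one_mul, norm_prod]
        exact Finset.prod_le_one (fun v _ => norm_nonneg _) fun v _ => norm_kp _ _ _
      · rw [norm_zero]
    refine (Finset.sum_le_sum h1).trans ?_
    rw [Finset.sum_boole]
    unfold dv
    have h2 : {δ | δ ∈ Dl L y ω α ∧ ν / δ ∈ du K L} =
        ((D.filter fun δ => ν / δ ∈ du K L : Finset K) : Set K) := by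
      ext δ
      simp only [Finset.coe_filter, Set.mem_ofPred_eq, hDm]
    rw [h2, Set.ncard_coe_finset]
  · intro c hc
    obtain ⟨CE, hCE0, hCE⟩ := hE1 N
    have hB0 : 0 ≤ CE * C₁ := mul_nonneg hCE0 hC₁.le
    have hB : ∀ v s m, Rl (rv v) m → ‖El (rv v) (α v) (c v) (Q v s) m‖ ≤
        (CE * C₁) * (1 + ‖m‖ / max 1 (α v * ‖c v‖)) ^ (-(N : ℝ)) := fun v s m hm =>
      (hCE (rv v) (α v) (c v) m (Q v s) C₁ (hGα v).2.1 (hGα v).2.2.1 (hc v) hm hC₁.le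
        (hAm v s)).1
    have hper : ∀ δ ∈ D, _ := fun δ hδ => per_delta hPO hLS hWS hn hfin hq hΨ hN hL y hω r δ
      hGα hSep hAm hc hB0 hB ((hDm δ).1 hδ).2
    have hreg : ∀ s : InfinitePlace K → ℂ, _ := fun s => regroup L r D
      (fun δ v => wv v δ y ω / α v) α Q c s hD0 hDN (fun δ hδ => (hper δ hδ).1 s)
    constructor
    · have h1 : (fun s : InfinitePlace K → ℂ => ∑' ν : {ν : K // ν ∈ NN K},
          (∑ δ ∈ D, if (ν : K) / δ ∈ du K L then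
          ca K (r + δ) ((ν : K) / δ) * ∏ v, kp (rv v) (s v) (wv v δ y ω / α v) else 0) *
          Ep α (fun v => Q v (s v)) c ν) = fun s => ∑ δ ∈ D,
          ∑' ξ : {ξ : K // ξ ∈ du K L}, TT r δ (fun v => wv v δ y ω / α v) α Q c ξ s :=
        funext hreg
      rw [h1]
      exact integrable_finsetSum D fun δ hδ => (hper δ hδ).2.1
    · have h1 : ∀ s : InfinitePlace K → ℂ, ∑' ν : {ν : K // ν ∈ NN K},
          (∑ δ ∈ D, if (ν : K) / δ ∈ du K L then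
          ca K (r + δ) ((ν : K) / δ) * ∏ v, kp (rv v) (s v) (wv v δ y ω / α v) else 0) *
          Ep α (fun v => Q v (s v)) c ν = ∑ δ ∈ D,
          ∑' ξ : {ξ : K // ξ ∈ du K L}, TT r δ (fun v => wv v δ y ω / α v) α Q c ξ s := hreg
      simp_rw [h1]
      rw [integral_finsetSum D fun δ hδ => (hper δ hδ).2.1, Finset.mul_sum]
      unfold OD
      rw [finsum_mem_eq_finite_toFinset_sum _ hDfin]
      exact Finset.sum_congr rfl fun δ hδ => (hper δ hδ).2.2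

end Pool.Agent.H13.TM
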