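import Pool.Agent.H31.SW.Tools
import Pool.Agent.H27.TM.TargetsL
import Pool.Agent.H29.DW.Tools

/-!
# Board tm12_modules, row PA: local part
-/

set_option autoImplicit false

open MeasureTheory Set Filter Complex
open scoped ENNReal Topology

namespace Pool.Agent.H13.TM

open Pool.Agent.H27.TM
open Pool.Agent.H31.SW
open Pool.Agent.H29.DW (dg Rl)

theorem measurableSet_S4 : MeasurableSet S4 := by
  unfold S4
  exact (measurableSet_le (Complex.measurable_re.abs) measurable_const).inter
    (measurableSet_le (Complex.measurable_im.abs) measurable_const)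

theorem S4_subset : S4 ⊆ Metric.closedBall (0 : ℂ) 8 := by
  intro s hs
  rw [mem_closedBall_zero_iff]
  have h := Complex.norm_le_abs_re_add_abs_im s
  have h1 := hs.1
  have h2 := hs.2
  linarith

theorem volume_S4_lt : volume S4 < ⊤ :=
  (measure_mono S4_subset).trans_lt (isCompact_closedBall (0 : ℂ) 8).measure_lt_top

theorem norm_kp (r : Bool) (s a : ℂ) : ‖kp r s a‖ ≤ 1 := by
  unfold kp
  split_ifs <;> simp

theorem measurable_kp (r : Bool) (a : ℂ) : Measurable fun s => kp r s a := by
  unfold kp
  refine Measurable.ite ?_ measurable_const measurable_const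
  have h1 : MeasurableSet {s : ℂ | s.re < a.re} :=
    measurableSet_lt Complex.measurable_re measurable_const
  have h2 : MeasurableSet {s : ℂ | s.im < a.im} :=
    measurableSet_lt Complex.measurable_im measurable_const
  cases r with
  | true =>
    have : {s : ℂ | s.re < a.re ∧ (true = true ∨ s.im < a.im)} = {s : ℂ | s.re < a.re} := by
      ext s
      simp
    rw [this]
    exact h1
  | false =>
    have : {s : ℂ | s.re < a.re ∧ (false = true ∨ s.im < a.im)} =
        {s : ℂ | s.re < a.re} ∩ {s : ℂ | s.im < a.im} := by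
      ext s
      simp
    rw [this]
    exact h1.inter h2

theorem measurable_lo (α : ℝ) : Measurable (lo α) := by
  unfold lo
  exact ((measurable_id.add_const _).div (measurable_id.sub_const _)).clog

theorem measurable_El (r : Bool) (α : ℝ) (c m : ℂ) {Q : ℂ → ℂ → ℂ}
    (hQ : Continuous (fun z : ℂ × ℂ => Q z.1 z.2)) : Measurable fun s => El r α c (Q s) m := by
  obtain ⟨F, hF⟩ : ∃ F : ℂ × ℂ → ℂ, ∀ s t, F (s, t) = EE (m * t + c * lo α t) * Q s t :=
    ⟨fun z => EE (m * z.2 + c * lo α z.2) * Q z.1 z.2, fun s t => rfl⟩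
  have h1 : Measurable F := by
    have h2 : Measurable (fun z : ℂ × ℂ => m * z.2 + c * lo α z.2) :=
      (measurable_snd.const_mul m).add (((measurable_lo α).comp measurable_snd).const_mul c)
    have h3 : Measurable (fun z : ℂ × ℂ => EE (m * z.2 + c * lo α z.2)) :=
      continuous_EE.measurable.comp h2
    have h4 : F = fun z : ℂ × ℂ => EE (m * z.2 + c * lo α z.2) * Q z.1 z.2 := by
      funext z
      exact hF z.1 z.2
    rw [h4]
    exact h3.mul hQ.measurable
  cases r with
  | true =>
    have h2 : Measurable (fun z : ℂ × ℝ => ((z.1, (z.2 : ℂ)) : ℂ × ℂ)) :=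
      measurable_fst.prodMk (Complex.measurable_ofReal.comp measurable_snd)
    have h3 : Measurable (fun z : ℂ × ℝ => F (z.1, (z.2 : ℂ))) := h1.comp h2
    have h4 := (h3.stronglyMeasurable).integral_prod_right' (ν := (volume : Measure ℝ))
    have h5 : (fun s => El true α c (Q s) m) = fun s => ∫ x : ℝ, F (s, (x : ℂ)) := by
      funext s
      unfold El
      rw [itg_true]
      exact integral_congr_ae (Eventually.of_forall fun x => (hF s x).symm)
    rw [h5]
    exact h4.measurable
  | false =>
    have h4 := (h1.stronglyMeasurable).integral_prod_right' (ν := (volume : Measure ℂ))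
    have h5 : (fun s => El false α c (Q s) m) = fun s => 2 * ∫ x : ℂ, F (s, x) := by
      funext s
      unfold El
      rw [itg_false]
      congr 1
      exact integral_congr_ae (Eventually.of_forall fun x => (hF s x).symm)
    rw [h5]
    exact h4.measurable.const_mul 2

theorem slit_of {z : ℂ} (h : ‖z - 1‖ ≤ 1 / 10000) : z ∈ Complex.slitPlane := by
  left
  have h1 : |(z - 1).re| ≤ ‖z - 1‖ := Complex.abs_re_le_norm _
  have h2 := neg_abs_le (z - 1).re
  have h3 : (z - 1).re = z.re - 1 := by simp
  rw [h3] at h1 h2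
  linarith

theorem continuous_G3 {q Ψ : ℂ → ℂ} (hq : Continuous q) (hq0 : ∀ x, 1 / 10000 < ‖x‖ → q x = 0)
    (hΨ : Continuous Ψ) (G : ℝ) (c a : ℂ) : Continuous (G3 q Ψ G c a) := by
  rw [continuous_iff_continuousAt]
  intro w
  by_cases h1 : 1 / 10000 < ‖w + a - 1‖
  · have h2 : ∀ᶠ z in 𝓝 w, 1 / 10000 < ‖z + a - 1‖ := by
      have : Continuous fun z : ℂ => ‖z + a - 1‖ := by fun_prop
      exact this.continuousAt.eventually (lt_mem_nhds h1)
    have h3 : G3 q Ψ G c a =ᶠ[𝓝 w] fun _ => 0 := by
      filter_upwards [h2] with z hz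
      unfold G3 GG
      rw [hq0 _ hz]
      ring
    exact (continuousAt_const (y := (0 : ℂ))).congr h3.symm
  by_cases h1' : 1 / 10000 < ‖w - a - 1‖
  · have h2 : ∀ᶠ z in 𝓝 w, 1 / 10000 < ‖z - a - 1‖ := by
      have : Continuous fun z : ℂ => ‖z - a - 1‖ := by fun_prop
      exact this.continuousAt.eventually (lt_mem_nhds h1')
    have h3 : G3 q Ψ G c a =ᶠ[𝓝 w] fun _ => 0 := by
      filter_upwards [h2] with z hz
      unfold G3 GG
      rw [hq0 _ hz]
      simp
    exact (continuousAt_const (y := (0 : ℂ))).congr h3.symm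
  push Not at h1 h1'
  have s1 := slit_of h1
  have s2 := slit_of h1'
  have l1 : ContinuousAt (fun z : ℂ => Complex.log (z + a)) w :=
    ContinuousAt.comp (f := fun z : ℂ => z + a) (continuousAt_clog s1)
      (continuous_id.add continuous_const).continuousAt
  have l2 : ContinuousAt (fun z : ℂ => Complex.log (z - a)) w :=
    ContinuousAt.comp (f := fun z : ℂ => z - a) (continuousAt_clog s2)
      (continuous_id.sub continuous_const).continuousAt
  have g1 : ContinuousAt (fun z : ℂ => GG q c (z + a)) w := by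
    unfold GG
    refine ContinuousAt.mul ?_ ?_
    · exact continuous_EE.continuousAt.comp (continuousAt_const.mul l1)
    · exact (hq.comp ((continuous_id.add continuous_const).sub continuous_const)).continuousAt
  have g2 : ContinuousAt (fun z : ℂ => GG q c (z - a)) w := by
    unfold GG
    refine ContinuousAt.mul ?_ ?_
    · exact continuous_EE.continuousAt.comp (continuousAt_const.mul l2)
    · exact (hq.comp ((continuous_id.sub continuous_const).sub continuous_const)).continuousAt
  unfold G3
  refine (g1.mul (Complex.continuous_conj.continuousAt.comp g2)).mul ?_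
  exact hΨ.continuousAt.comp (continuousAt_const.mul (l1.sub l2))

theorem G3_zero {q Ψ : ℂ → ℂ} (hq0 : ∀ x, 1 / 10000 < ‖x‖ → q x = 0) (G : ℝ) (c a w : ℂ)
    (hw : 2 < ‖w‖) : G3 q Ψ G c a w = 0 := by
  by_cases h1 : 1 / 10000 < ‖w + a - 1‖
  · unfold G3 GG
    rw [hq0 _ h1]
    ring
  by_cases h2 : 1 / 10000 < ‖w - a - 1‖
  · unfold G3 GG
    rw [hq0 _ h2]
    simp
  push Not at h1 h2
  exfalso
  have h3 : ‖(w + a - 1) + (w - a - 1)‖ ≤ 1 / 10000 + 1 / 10000 :=
    (norm_add_le _ _).trans (add_le_add h1 h2)
  have h4 : (w + a - 1) + (w - a - 1) = 2 * (w - 1) := by ring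
  rw [h4, norm_mul, Complex.norm_ofNat] at h3
  have h5 : ‖w‖ ≤ ‖w - 1‖ + 1 := by
    calc ‖w‖ = ‖(w - 1) + 1‖ := by rw [sub_add_cancel]
      _ ≤ ‖w - 1‖ + ‖(1 : ℂ)‖ := norm_add_le _ _
      _ = ‖w - 1‖ + 1 := by rw [norm_one]
  linarith

/-- a series of bounded functions on a finite measure space -/
theorem sum_int {ι X : Type} [Countable ι] [MeasurableSpace X] {μ : Measure X} [IsFiniteMeasure μ]
    {F : ι → X → ℂ} {bd : ι → ℝ} (hm : ∀ i, AEStronglyMeasurable (F i) μ)
    (hb : ∀ i x, ‖F i x‖ ≤ bd i) (hs : Summable bd) :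
    Integrable (fun x => ∑' i, F i x) μ ∧
      HasSum (fun i => ∫ x, F i x ∂μ) (∫ x, ∑' i, F i x ∂μ) := by
  have hsx : ∀ x, Summable fun i => F i x := fun x => hs.of_norm_bounded fun i => hb i x
  constructor
  · have hmeas : AEStronglyMeasurable (fun x => ∑' i, F i x) μ := by
      refine aestronglyMeasurable_of_tendsto_ae (atTop : Filter (Finset ι))
        (f := fun s x => ∑ i ∈ s, F i x) ?_ ?_
      · intro s
        exact Finset.aestronglyMeasurable_fun_sum s fun i _ => hm i
      · exact Eventually.of_forall fun x => (hsx x).hasSum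
    refine Integrable.of_bound hmeas (∑' i, bd i) ?_
    exact Eventually.of_forall fun x => tsum_of_norm_bounded hs.hasSum fun i => hb i x
  · refine hasSum_integral_of_dominated_convergence (fun i _ => bd i) hm
      (fun i => Eventually.of_forall fun x => hb i x) (Eventually.of_forall fun _ => hs)
      (integrable_const _) (Eventually.of_forall fun x => (hsx x).hasSum)

end Pool.Agent.H13.TM
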